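import Pool.Agent.Helper14.CV.StC

/-!
# CV MODULE Rmap: the quadrilateral relation maps `antiO k` onto `antiF k`
-/

set_option autoImplicit false

namespace Pool.Agent.Helper9.CV

open Pool.Agent.Helper14.CV

variable {k : ℕ}

theorem rm_two_pow : (2 : ZMod (2 ^ k)) ^ k = 0 := by
  have := ZMod.natCast_self (2 ^ k)
  push_cast at this
  exact this

theorem rm_unit (x : ZMod (2 ^ k)) : IsUnit (1 + 2 * x) := by
  apply IsNilpotent.isUnit_one_add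
  refine ⟨k, ?_⟩
  rw [mul_pow, rm_two_pow, zero_mul]

theorem rm_inv (x : ZMod (2 ^ k)) : (1 + 2 * x) * (1 + 2 * x)⁻¹ = 1 :=
  ZMod.mul_inv_of_unit _ (rm_unit x)

theorem rm_inv_eq {a b : ZMod (2 ^ k)} (h : a * b = 1) : a⁻¹ = b := by
  have ha : IsUnit a := IsUnit.of_mul_eq_one _ h
  have h2 : a * a⁻¹ = 1 := ZMod.mul_inv_of_unit _ ha
  linear_combination (-a⁻¹) * h + b * h2

theorem rm_h (hk : 1 ≤ k) : 2 * (2 : ZMod (2 ^ k)) ^ (k - 1) = 0 := by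
  rw [← pow_succ', Nat.sub_add_cancel hk, rm_two_pow]

theorem rm_h_inv (hk : 1 ≤ k) (x : ZMod (2 ^ k)) :
    (2 : ZMod (2 ^ k)) ^ (k - 1) * (1 + 2 * x)⁻¹ = 2 ^ (k - 1) := by
  have h1 := rm_inv x
  have h2 := rm_h hk
  linear_combination (2 : ZMod (2 ^ k)) ^ (k - 1) * h1 - (x * (1 + 2 * x)⁻¹) * h2

theorem rm_inv_h (hk : 1 ≤ k) (x : ZMod (2 ^ k)) :
    (1 + 2 * (x + 2 ^ (k - 1)))⁻¹ = (1 + 2 * x)⁻¹ := by
  have h2 := rm_h hk
  congr 1
  linear_combination h2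

/-- `x / (1 + 2 x)` and the period. -/
theorem rm_q_h (hk : 1 ≤ k) (x : ZMod (2 ^ k)) :
    (x + 2 ^ (k - 1)) * (1 + 2 * (x + 2 ^ (k - 1)))⁻¹ = x * (1 + 2 * x)⁻¹ + 2 ^ (k - 1) := by
  rw [rm_inv_h hk, add_mul, rm_h_inv hk]

theorem rm_v_h (hk : 1 ≤ k) (x : ZMod (2 ^ k)) :
    vv (x + 2 ^ (k - 1)) = vv x + 2 ^ (k - 1) := by
  unfold vv
  rw [rm_inv_h hk]
  have h1 := rm_h_inv hk x
  have h2 := rm_h hk
  linear_combination -h1 - h2

theorem rm_neg_h (hk : 1 ≤ k) (x : ZMod (2 ^ k)) :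
    -(x + 2 ^ (k - 1)) = -x + 2 ^ (k - 1) := by
  have h2 := rm_h hk
  linear_combination -h2

theorem rm_inv_v (x : ZMod (2 ^ k)) : (1 + 2 * vv x)⁻¹ = -(1 + 2 * x) := by
  apply rm_inv_eq
  unfold vv
  have h1 := rm_inv x
  linear_combination (2 * (1 + x)) * h1

/-- `v x / (1 + 2 v x) = 1 + x`. -/
theorem rm_q_v (x : ZMod (2 ^ k)) : vv x * (1 + 2 * vv x)⁻¹ = x + 1 := by
  rw [rm_inv_v]
  unfold vv
  have h1 := rm_inv x
  linear_combination (1 + x) * h1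

/-- `1 + v x = x / (1 + 2 x)`. -/
theorem rm_v_add (x : ZMod (2 ^ k)) : vv x + 1 = x * (1 + 2 * x)⁻¹ := by
  unfold vv
  have h1 := rm_inv x
  linear_combination -h1

theorem rm_inv_rho (y : ZMod (2 ^ k)) :
    (1 + 2 * (-y * (1 + 2 * y)⁻¹))⁻¹ = 1 + 2 * y := by
  apply rm_inv_eq
  have h1 := rm_inv y
  linear_combination (-2 * y) * h1

theorem rm_inv_rho' (x : ZMod (2 ^ k)) : (1 + 2 * (-x - 1))⁻¹ = -(1 + 2 * x)⁻¹ := by
  apply rm_inv_eq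
  have h1 := rm_inv x
  linear_combination h1

/-- The operator `T`. -/
noncomputable def Tt (f : ZMod (2 ^ k) → ZMod (2 ^ k) → ℂ) : ZMod (2 ^ k) → ZMod (2 ^ k) → ℂ :=
  fun x y => f (x + 1) (y * (1 + 2 * y)⁻¹)

theorem Tt_iter (f : ZMod (2 ^ k) → ZMod (2 ^ k) → ℂ) (i : ℕ) (x y : ZMod (2 ^ k)) :
    (Tt^[i] f) x y = f (x + i) (y * (1 + 2 * (i * y))⁻¹) := by
  induction i generalizing f with
  | zero =>
    have h1 : ((1 : ZMod (2 ^ k)))⁻¹ = 1 := rm_inv_eq (by ring)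
    simp [h1]
  | succ i ih =>
    rw [Function.iterate_succ_apply, ih]
    unfold Tt
    have hw := rm_inv ((i : ZMod (2 ^ k)) * y)
    have hw' := rm_inv ((i : ZMod (2 ^ k)) * y + y)
    have e1 : (1 + 2 * (y * (1 + 2 * ((i : ZMod (2 ^ k)) * y))⁻¹))⁻¹ =
        (1 + 2 * ((i : ZMod (2 ^ k)) * y)) * (1 + 2 * ((i : ZMod (2 ^ k)) * y + y))⁻¹ := by
      apply rm_inv_eq
      linear_combination hw' + (2 * y * (1 + 2 * ((i : ZMod (2 ^ k)) * y + y))⁻¹) * hw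
    have e2 : y * (1 + 2 * ((i : ZMod (2 ^ k)) * y))⁻¹ *
        (1 + 2 * (y * (1 + 2 * ((i : ZMod (2 ^ k)) * y))⁻¹))⁻¹ =
        y * (1 + 2 * (((i + 1 : ℕ) : ZMod (2 ^ k)) * y))⁻¹ := by
      rw [e1]
      have e3 : (1 + 2 * (((i + 1 : ℕ) : ZMod (2 ^ k)) * y)) =
          1 + 2 * ((i : ZMod (2 ^ k)) * y + y) := by
        push_cast; ring
      rw [e3]
      linear_combination (y * (1 + 2 * ((i : ZMod (2 ^ k)) * y + y))⁻¹) * hw
    have e4 : x + (i : ZMod (2 ^ k)) + 1 = x + ((i + 1 : ℕ) : ZMod (2 ^ k)) := by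
      push_cast; ring
    rw [e2, e4]

/-- Antiperiodic functions. -/
def AP (f : ZMod (2 ^ k) → ZMod (2 ^ k) → ℂ) : Prop :=
  ∀ x y, f (x + 2 ^ (k - 1)) y = -f x y ∧ f x (y + 2 ^ (k - 1)) = -f x y

theorem AP.Tt (hk : 1 ≤ k) {f : ZMod (2 ^ k) → ZMod (2 ^ k) → ℂ} (h : AP f) : AP (Tt f) := by
  intro x y
  unfold Pool.Agent.Helper9.CV.Tt
  constructor
  · have e : x + 2 ^ (k - 1) + 1 = (x + 1) + 2 ^ (k - 1) := by ring
    rw [e, (h _ _).1]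
  · rw [rm_q_h hk, (h _ _).2]

theorem AP.iter (hk : 1 ≤ k) {f : ZMod (2 ^ k) → ZMod (2 ^ k) → ℂ} (h : AP f) (i : ℕ) :
    AP (Pool.Agent.Helper9.CV.Tt^[i] f) := by
  induction i generalizing f with
  | zero => exact h
  | succ i ih => rw [Function.iterate_succ_apply]; exact ih (h.Tt hk)

theorem AP.iter_h (hk : 1 ≤ k) {f : ZMod (2 ^ k) → ZMod (2 ^ k) → ℂ} (h : AP f)
    (x y : ZMod (2 ^ k)) : (Pool.Agent.Helper9.CV.Tt^[2 ^ (k - 1)] f) x y = -f x y := by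
  rw [Tt_iter]
  have e1 : (((2 ^ (k - 1) : ℕ)) : ZMod (2 ^ k)) = 2 ^ (k - 1) := by push_cast; rfl
  rw [e1]
  have e2 : (1 + 2 * ((2 : ZMod (2 ^ k)) ^ (k - 1) * y))⁻¹ = 1 := by
    apply rm_inv_eq
    have h2 := rm_h hk
    linear_combination y * h2
  rw [e2, mul_one, (h _ _).1]

theorem Rq_apply (f : ZMod (2 ^ k) → ZMod (2 ^ k) → ℂ) (x y : ZMod (2 ^ k)) :
    Rq k f x y = f (x + 1) (y * (1 + 2 * y)⁻¹) + f (x * (1 + 2 * x)⁻¹) (y + 1) - f x y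
    - f (vv x) (vv y) := rfl

theorem Rq_eq (f : ZMod (2 ^ k) → ZMod (2 ^ k) → ℂ) (x y : ZMod (2 ^ k)) :
    Rq k f x y = (Tt f x y - f x y) + (Tt f (vv x) (vv y) - f (vv x) (vv y)) := by
  rw [Rq_apply]
  unfold Tt
  rw [rm_v_add, rm_q_v]
  ring

theorem Rq_swap (f : ZMod (2 ^ k) → ZMod (2 ^ k) → ℂ) (x y : ZMod (2 ^ k)) :
    Rq k (fun a b => f b a) x y = Rq k f y x := by
  rw [Rq_apply, Rq_apply]
  ring

theorem Rq_neg (f : ZMod (2 ^ k) → ZMod (2 ^ k) → ℂ) (x y : ZMod (2 ^ k)) :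
    Rq k (fun a b => f (-a) (-b)) x y = -Rq k f (-x - 1) (-y * (1 + 2 * y)⁻¹) := by
  rw [Rq_apply, Rq_apply]
  have h1 := rm_inv x
  have h2 := rm_inv y
  have a1 : -x - 1 + 1 = -x := by ring
  have a2 : -y * (1 + 2 * y)⁻¹ * (1 + 2 * (-y * (1 + 2 * y)⁻¹))⁻¹ = -y := by
    rw [rm_inv_rho]; linear_combination (-y) * h2
  have a3 : (-x - 1) * (1 + 2 * (-x - 1))⁻¹ = -vv x := by
    rw [rm_inv_rho']; unfold vv; ring
  have a4 : -y * (1 + 2 * y)⁻¹ + 1 = -vv y := by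
    unfold vv; linear_combination -h2
  have a5 : vv (-x - 1) = -(x * (1 + 2 * x)⁻¹) := by
    have : vv (-x - 1) = -(1 + (-x - 1)) * (1 + 2 * (-x - 1))⁻¹ := rfl
    rw [this, rm_inv_rho']; ring
  have a6 : vv (-y * (1 + 2 * y)⁻¹) = -(y + 1) := by
    have : vv (-y * (1 + 2 * y)⁻¹) = -(1 + (-y * (1 + 2 * y)⁻¹)) *
      (1 + 2 * (-y * (1 + 2 * y)⁻¹))⁻¹ := rfl
    rw [this, rm_inv_rho]; linear_combination y * h2
  have a7 : -(x + 1) = -x - 1 := by ring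
  have a8 : -(y * (1 + 2 * y)⁻¹) = -y * (1 + 2 * y)⁻¹ := by ring
  rw [a1, a2, a3, a4, a5, a6, a7, a8]
  ring

theorem Rq_AP (hk : 1 ≤ k) {f : ZMod (2 ^ k) → ZMod (2 ^ k) → ℂ} (h : AP f) :
    AP (Rq k f) := by
  intro x y
  have e : ∀ z : ZMod (2 ^ k), z + 2 ^ (k - 1) + 1 = (z + 1) + 2 ^ (k - 1) := fun z => by ring
  constructor
  · rw [Rq_apply, Rq_apply, rm_q_h hk, rm_v_h hk, e, (h _ _).1, (h _ _).1, (h _ _).1, (h _ _).1]
    ring
  · rw [Rq_apply, Rq_apply, rm_q_h hk, rm_v_h hk, e, (h _ _).2, (h _ _).2, (h _ _).2, (h _ _).2]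
    ring

/-- `R` maps `antiO` to `antiF`. -/
theorem Rq_maps (hk : 1 ≤ k) {f : ZMod (2 ^ k) → ZMod (2 ^ k) → ℂ} (h : f ∈ antiO k) :
    Rq k f ∈ antiF k := by
  have h' : ∀ x y, f (x + 2 ^ (k - 1)) y = -f x y ∧ f x (y + 2 ^ (k - 1)) = -f x y ∧
    f y x = f x y ∧ f (-x) (-y) = f x y := h
  have hap : AP f := fun x y => ⟨(h' x y).1, (h' x y).2.1⟩
  have hs : (fun a b => f b a) = f := by funext a b; exact (h' a b).2.2.1
  have hn : (fun a b => f (-a) (-b)) = f := by funext a b; exact (h' a b).2.2.2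
  change ∀ x y, _
  intro x y
  refine ⟨(Rq_AP hk hap x y).1, (Rq_AP hk hap x y).2, ?_, ?_⟩
  · have := Rq_swap f x y
    rw [hs] at this
    exact this.symm
  · have := Rq_neg f x y
    rw [hn] at this
    rw [this]
    ring

theorem Rq_onto (hk : 1 ≤ k) {F : ZMod (2 ^ k) → ZMod (2 ^ k) → ℂ} (h : F ∈ antiF k) :
    ∃ f ∈ antiO k, Rq k f = F := by
  have h' : ∀ x y, F (x + 2 ^ (k - 1)) y = -F x y ∧ F x (y + 2 ^ (k - 1)) = -F x y ∧
    F y x = F x y ∧ F (-x - 1) (-y * (1 + 2 * y)⁻¹) = -F x y := h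
  have hap : AP F := fun x y => ⟨(h' x y).1, (h' x y).2.1⟩
  have hs : ∀ x y, F y x = F x y := fun x y => (h' x y).2.2.1
  have hr : ∀ x y, F (-x - 1) (-y * (1 + 2 * y)⁻¹) = -F x y := fun x y => (h' x y).2.2.2
  have hr' : ∀ x y, F (-x * (1 + 2 * x)⁻¹) (-y - 1) = -F x y := by
    intro x y
    rw [hs, hr, hs]
  have hv : ∀ x y, F (vv x) (vv y) = F x y := by
    intro x y
    have h1 := hr (-x * (1 + 2 * x)⁻¹) (-y - 1)
    rw [hr'] at h1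
    have a1 : -(-x * (1 + 2 * x)⁻¹) - 1 = vv x := by
      unfold vv; linear_combination rm_inv x
    have a2 : -(-y - 1) * (1 + 2 * (-y - 1))⁻¹ = vv y := by
      rw [rm_inv_rho']; unfold vv; ring
    rw [a1, a2] at h1
    rw [h1]
    ring
  -- the preimage
  set f0 : ZMod (2 ^ k) → ZMod (2 ^ k) → ℂ :=
    (-(1 / 4 : ℂ)) • ∑ i ∈ Finset.range (2 ^ (k - 1)), Tt^[i] F with hf0
  have hf0a : ∀ x y, f0 x y =
      (-(1 / 4 : ℂ)) * ∑ i ∈ Finset.range (2 ^ (k - 1)), (Tt^[i] F) x y := by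
    intro x y
    rw [hf0]
    simp only [Pi.smul_apply, Finset.sum_apply, smul_eq_mul]
  have hf0ap : AP f0 := by
    intro x y
    constructor
    · rw [hf0a, hf0a, Finset.sum_congr rfl fun i _ => (hap.iter hk i x y).1,
        Finset.sum_neg_distrib]
      ring
    · rw [hf0a, hf0a, Finset.sum_congr rfl fun i _ => (hap.iter hk i x y).2,
        Finset.sum_neg_distrib]
      ring
  have hT : ∀ x y, Tt f0 x y - f0 x y = F x y / 2 := by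
    intro x y
    have e1 : Tt f0 x y =
        (-(1 / 4 : ℂ)) * ∑ i ∈ Finset.range (2 ^ (k - 1)), (Tt^[i + 1] F) x y := by
      have : Tt f0 x y = f0 (x + 1) (y * (1 + 2 * y)⁻¹) := rfl
      rw [this, hf0a]
      congr 1
      refine Finset.sum_congr rfl fun i _ => ?_
      rw [Function.iterate_succ_apply']
      rfl
    rw [e1, hf0a, ← mul_sub, ← Finset.sum_sub_distrib,
      Finset.sum_range_sub (fun i => (Tt^[i] F) x y), hap.iter_h hk]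
    simp only [Function.iterate_zero, id_eq]
    ring
  have hR0 : Rq k f0 = F := by
    funext x y
    rw [Rq_eq, hT, hT, hv]
    ring
  -- the average
  set f1 : ZMod (2 ^ k) → ZMod (2 ^ k) → ℂ := fun a b => f0 (-a) (-b) with hf1
  set f2 : ZMod (2 ^ k) → ZMod (2 ^ k) → ℂ := fun a b => f0 b a with hf2
  set f3 : ZMod (2 ^ k) → ZMod (2 ^ k) → ℂ := fun a b => f1 b a with hf3
  have hR1 : Rq k f1 = F := by
    funext x y
    rw [hf1, Rq_neg, hR0, hr]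
    ring
  have hR2 : Rq k f2 = F := by
    funext x y
    rw [hf2, Rq_swap, hR0, hs]
  have hR3 : Rq k f3 = F := by
    funext x y
    rw [hf3, Rq_swap, hR1, hs]
  refine ⟨(1 / 4 : ℂ) • (f0 + f1 + f2 + f3), ?_, ?_⟩
  · change ∀ x y, _
    intro x y
    simp only [Pi.smul_apply, Pi.add_apply, smul_eq_mul, hf3, hf2, hf1]
    refine ⟨?_, ?_, ?_, ?_⟩
    · rw [rm_neg_h hk, (hf0ap _ _).1, (hf0ap _ _).1, (hf0ap _ _).2, (hf0ap _ _).2]
      ring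
    · rw [rm_neg_h hk, (hf0ap _ _).1, (hf0ap _ _).1, (hf0ap _ _).2, (hf0ap _ _).2]
      ring
    · ring
    · rw [neg_neg, neg_neg]
      ring
  · rw [map_smul, map_add, map_add, map_add, hR0, hR1, hR2, hR3]
    funext x y
    simp only [Pi.smul_apply, Pi.add_apply, smul_eq_mul]
    ring

theorem hRmap : StRmap := by
  intro k hk
  ext F
  rw [Submodule.mem_map]
  constructor
  · rintro ⟨f, hf, rfl⟩
    exact Rq_maps (by omega) hf
  · intro hF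
    exact Rq_onto (by omega) hF

end Pool.Agent.Helper9.CV
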